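import Pool.Agent.helper84.QI.Spec

/-!
# qi:BPW (project QI, MP_fd6eef_al): a power of `b` with infinitely many conjugates and of good order
-/

set_option autoImplicit false

namespace Pool.Agent.QI

theorem BPW_cent {G : Type} [Group G] (b : G) (r m : ℕ) (hcop : Nat.Coprime (2 ^ r) m)
    (g : G) (h1 : Commute g (b ^ 2 ^ r)) (h2 : Commute g (b ^ m)) : Commute g b := by
  have hbez : (1 : ℤ) = ((2 ^ r : ℕ) : ℤ) * Nat.gcdA (2 ^ r) m + (m : ℤ) * Nat.gcdB (2 ^ r) m := by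
    have := Nat.gcd_eq_gcd_ab (2 ^ r) m
    rw [hcop] at this
    exact_mod_cast this
  have hb : b = (b ^ 2 ^ r) ^ (Nat.gcdA (2 ^ r) m) * (b ^ m) ^ (Nat.gcdB (2 ^ r) m) := by
    rw [← zpow_natCast b (2 ^ r), ← zpow_natCast b m, ← zpow_mul, ← zpow_mul, ← zpow_add, ← hbez, zpow_one]
  rw [hb]
  exact (h1.zpow_right _).mul_right (h2.zpow_right _)

theorem BPW_cent2 {G : Type} [Group G] (b : G) (r m : ℕ) (hcop : Nat.Coprime (2 ^ r) m) (h2 : (b ^ m) ^ 2 = 1)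
    (g : G) (h1 : Commute g (b ^ 2 ^ r)) : Commute g (b ^ 2) := by
  have hbez : (1 : ℤ) = ((2 ^ r : ℕ) : ℤ) * Nat.gcdA (2 ^ r) m + (m : ℤ) * Nat.gcdB (2 ^ r) m := by
    have := Nat.gcd_eq_gcd_ab (2 ^ r) m
    rw [hcop] at this
    exact_mod_cast this
  have hb : b ^ 2 = (b ^ 2 ^ r) ^ (2 * Nat.gcdA (2 ^ r) m) := by
    have h3 : (b ^ 2 : G) = b ^ (2 * (1 : ℤ)) := by
      rw [mul_one]
      norm_cast
    have h4 : b ^ (2 * ((m : ℤ) * Nat.gcdB (2 ^ r) m)) = 1 := by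
      have h5 : (2 * ((m : ℤ) * Nat.gcdB (2 ^ r) m)) = ((m * 2 : ℕ) : ℤ) * Nat.gcdB (2 ^ r) m := by
        push_cast
        ring
      rw [h5, zpow_mul, zpow_natCast, pow_mul, h2, one_zpow]
    rw [h3, hbez, mul_add, zpow_add, h4, mul_one, ← zpow_natCast b (2 ^ r), ← zpow_mul]
    congr 1
    ring
  rw [hb]
  exact h1.zpow_right _

theorem BPW_mem {G : Type} [Group G] (g y : G) : g ∈ Subgroup.centralizer ({y} : Set G) ↔ Commute g y := by
  rw [Subgroup.mem_centralizer_singleton_iff]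
  rfl

theorem BPW : BPW_stmt := by
  intro G _ b hb hC
  obtain ⟨r, m, hm, hn⟩ := Nat.exists_eq_two_pow_mul_odd (orderOf_pos_iff.mpr hb).ne'
  have hm0 : 0 < m := hm.pos
  have hcop : Nat.Coprime (2 ^ r) m := Nat.Coprime.pow_left r (Nat.coprime_two_left.mpr hm)
  have ho1 : orderOf (b ^ 2 ^ r) = m := by
    rw [orderOf_pow_of_dvd (by positivity) ⟨m, hn⟩, hn, Nat.mul_div_cancel_left _ (by positivity)]
  have ho2 : orderOf (b ^ m) = 2 ^ r := by
    rw [orderOf_pow_of_dvd hm0.ne' ⟨2 ^ r, by rw [hn, mul_comm]⟩, hn, Nat.mul_div_cancel _ hm0]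
  by_cases h1 : (Subgroup.centralizer ({b ^ 2 ^ r} : Set G)).FiniteIndex
  · by_cases hr : 2 ≤ r
    · by_cases h2 : (Subgroup.centralizer ({b ^ m} : Set G)).FiniteIndex
      · exfalso
        apply hC
        have h3 : (Subgroup.centralizer ({b ^ 2 ^ r} : Set G) ⊓ Subgroup.centralizer ({b ^ m} : Set G)).FiniteIndex :=
          inferInstance
        refine Subgroup.finiteIndex_of_le (H := Subgroup.centralizer ({b ^ 2 ^ r} : Set G) ⊓ Subgroup.centralizer ({b ^ m} : Set G)) ?_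
        intro g hg
        rw [Subgroup.mem_inf, BPW_mem, BPW_mem] at hg
        rw [BPW_mem]
        exact (BPW_cent b r m hcop g hg.1 hg.2).pow_right 2
      · exact ⟨b ^ m, Subgroup.npow_mem_zpowers b m, h2, Or.inr ⟨r, hr, ho2⟩⟩
    · exfalso
      apply hC
      refine Subgroup.finiteIndex_of_le (H := Subgroup.centralizer ({b ^ 2 ^ r} : Set G)) ?_
      intro g hg
      rw [BPW_mem] at hg ⊢
      refine BPW_cent2 b r m hcop ?_ g hg
      rw [← orderOf_dvd_iff_pow_eq_one, ho2]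
      calc 2 ^ r ∣ 2 ^ 1 := Nat.pow_dvd_pow 2 (by omega)
        _ = 2 := pow_one 2
        _ ∣ 2 := dvd_rfl
  · exact ⟨b ^ 2 ^ r, Subgroup.npow_mem_zpowers b _, h1, Or.inl (by rw [ho1]; exact hm)⟩

end Pool.Agent.QI
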